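import Mathlib

/-!
Convex combinations of a bounded sequence of continuous functions which tends to `0` pointwise.
-/

namespace Pool.Agent.H57.KH

open MeasureTheory Filter Topology CompactlySupported

/-- dominated convergence for positive functionals on `C(K)` -/
lemma pos_tendsto {K : Type*} [TopologicalSpace K] [CompactSpace K] [T2Space K]
    (Λ : C(K, ℝ) →ₗ[ℝ] ℝ) (hΛ : ∀ g : C(K, ℝ), 0 ≤ g → 0 ≤ Λ g)
    (ψ : ℕ → C(K, ℝ)) (M : ℝ) (h0 : ∀ n k, ‖ψ n k‖ ≤ M)
    (hlim : ∀ k, Tendsto (fun n => ψ n k) atTop (𝓝 0)) :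
    Tendsto (fun n => Λ (ψ n)) atTop (𝓝 0) := by
  let _ : MeasurableSpace K := borel K
  have _ : BorelSpace K := ⟨rfl⟩
  let Λ1 : C_c(K, ℝ) →ₗ[ℝ] ℝ :=
    { toFun := fun f => Λ f.toContinuousMap
      map_add' := fun a b => Λ.map_add a.toContinuousMap b.toContinuousMap
      map_smul' := fun c a => Λ.map_smul c a.toContinuousMap }
  let Λc : C_c(K, ℝ) →ₚ[ℝ] ℝ := PositiveLinearMap.mk₀ Λ1 (fun f hf => hΛ _ fun k => hf k)
  let μ : Measure K := RealRMK.rieszMeasure Λc
  have hμ : ∀ g : C(K, ℝ), ∫ x, g x ∂μ = Λ g := fun g =>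
    RealRMK.integral_rieszMeasure Λc (CompactlySupportedContinuousMap.continuousMapEquiv g)
  have hreg : IsFiniteMeasureOnCompacts μ := by
    show IsFiniteMeasureOnCompacts (RealRMK.rieszMeasure Λc)
    infer_instance
  have hfin : IsFiniteMeasure μ := inferInstance
  have h1 : Tendsto (fun n => ∫ x, ψ n x ∂μ) atTop (𝓝 (∫ _, (0 : ℝ) ∂μ)) := by
    refine tendsto_integral_of_dominated_convergence (fun _ => M) ?_ (integrable_const M) ?_ ?_
    · exact fun n => (ψ n).continuous.aestronglyMeasurable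
    · exact fun n => Eventually.of_forall fun k => h0 n k
    · exact Eventually.of_forall fun k => hlim k
  simpa [hμ] using h1

/-- a bounded sequence of continuous functions that tends to `0` pointwise has convex
combinations that are uniformly small -/
theorem convex_small {K : Type*} [TopologicalSpace K] [CompactSpace K] [T2Space K]
    (ψ : ℕ → C(K, ℝ)) (M : ℝ) (h0 : ∀ n k, ‖ψ n k‖ ≤ M)
    (hlim : ∀ k, Tendsto (fun n => ψ n k) atTop (𝓝 0)) {ε : ℝ} (hε : 0 < ε) :
    ∃ g ∈ convexHull ℝ (Set.range ψ), ∀ k, g k < ε := by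
  by_contra hno
  push Not at hno
  let U : Set C(K, ℝ) := {g | ∀ k, g k < ε}
  have hUo : IsOpen U := by
    rcases isEmpty_or_nonempty K with hK | hK
    · have : U = Set.univ := Set.eq_univ_of_forall fun g k => (hK.false k).elim
      rw [this]
      exact isOpen_univ
    · rw [Metric.isOpen_iff]
      intro g hg
      obtain ⟨k0, hk0⟩ := (isCompact_univ (X := K)).exists_isMaxOn Set.univ_nonempty
        g.continuous.continuousOn
      refine ⟨ε - g k0, sub_pos.2 (hg k0), fun h hh k => ?_⟩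
      have h1 : dist (h k) (g k) < ε - g k0 := (ContinuousMap.dist_apply_le_dist k).trans_lt hh
      have h2 : g k ≤ g k0 := hk0.2 (Set.mem_univ k)
      rw [Real.dist_eq] at h1
      have := (abs_lt.1 h1).2
      linarith
  have hUc : Convex ℝ U := by
    intro a ha b hb s t hs ht hst k
    show s * a k + t * b k < ε
    have h1 := ha k
    have h2 := hb k
    rcases hs.eq_or_lt with h | h
    · rw [← h] at hst ⊢
      rw [zero_add] at hst
      rw [hst]
      linarith
    · nlinarith [mul_lt_mul_of_pos_left h1 h, mul_le_mul_of_nonneg_left h2.le ht]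
  have hdisj : Disjoint U (convexHull ℝ (Set.range ψ)) := by
    rw [Set.disjoint_left]
    intro g hg hg2
    obtain ⟨k, hk⟩ := hno g hg2
    exact absurd (hg k) (not_lt.2 hk)
  obtain ⟨Λ, u, hU, hV⟩ :=
    geometric_hahn_banach_open hUc hUo (convex_convexHull ℝ (Set.range ψ)) hdisj
  have h0U : (0 : ℝ) < u := by
    have := hU 0 (fun k => hε)
    simpa using this
  have hpos : ∀ g : C(K, ℝ), 0 ≤ g → 0 ≤ Λ g := by
    intro g hg
    by_contra hneg
    push Not at hneg
    have hmem : ((u + 1) / Λ g) • g ∈ U := by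
      intro k
      show ((u + 1) / Λ g) * g k < ε
      have h1 : (u + 1) / Λ g ≤ 0 := (div_neg_of_pos_of_neg (by linarith) hneg).le
      have h2 : 0 ≤ g k := hg k
      nlinarith [mul_nonneg (neg_nonneg.2 h1) h2]
    have h3 := hU _ hmem
    rw [map_smul, smul_eq_mul, div_mul_cancel₀ _ hneg.ne] at h3
    linarith
  have hlimΛ := pos_tendsto (Λ : C(K, ℝ) →ₗ[ℝ] ℝ) hpos ψ M h0 hlim
  have hle : ∀ n, u ≤ Λ (ψ n) := fun n => hV _ (subset_convexHull ℝ _ ⟨n, rfl⟩)
  have : u ≤ 0 := ge_of_tendsto' hlimΛ hle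
  linarith

end Pool.Agent.H57.KH
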