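import Pool.Agent.H57.KH.A

/-!
Compact operators that factor through a Hilbert space with a countable basis are norm limits of
operators of finite rank.
-/

namespace Pool.Agent.H57.KH

open Filter Topology

variable {𝕜 : Type*} [RCLike 𝕜]

/-- the unit ball of the dual, with the weak-* topology -/
abbrev Ball (𝕜 : Type*) [RCLike 𝕜] (X : Type*) [NormedAddCommGroup X] [NormedSpace 𝕜 X] :
    Set (WeakDual 𝕜 X) :=
  WeakDual.toStrongDual ⁻¹' Metric.closedBall (0 : StrongDual 𝕜 X) 1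

/-- for compact `S` the norm of `φ ∘ S` depends continuously on `φ` in the unit ball -/
theorem continuous_norm_comp {X : Type*} [NormedAddCommGroup X] [NormedSpace 𝕜 X]
    (S : X →L[𝕜] X) (hS : IsCompactOperator S) :
    Continuous fun φ : Ball 𝕜 X => ‖(WeakDual.toStrongDual φ.1).comp S‖ := by
  rw [continuous_iff_continuousAt]
  intro φ0
  rw [ContinuousAt, Metric.tendsto_nhds]
  intro ε hε
  have hK : TotallyBounded (S '' Metric.closedBall 0 1) :=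
    (hS.isCompact_closure_image_closedBall (f := (S : X →ₗ[𝕜] X)) 1).totallyBounded.subset
      subset_closure
  obtain ⟨t, ht, htc⟩ := Metric.totallyBounded_iff.1 hK (ε / 4) (by positivity)
  have hev : ∀ᶠ φ : Ball 𝕜 X in 𝓝 φ0, ∀ s ∈ t, ‖φ.1 s - φ0.1 s‖ < ε / 4 := by
    rw [Filter.eventually_all_finite ht]
    intro s _
    have hc : Continuous fun φ : Ball 𝕜 X => φ.1 s :=
      (WeakDual.eval_continuous s).comp continuous_subtype_val
    have := Metric.tendsto_nhds.1 (hc.tendsto φ0) (ε / 4) (by positivity)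
    simpa only [dist_eq_norm] using this
  filter_upwards [hev] with φ hφ
  have hn : ∀ ψ : Ball 𝕜 X, ∀ x, ‖ψ.1 x‖ ≤ ‖x‖ := by
    intro ψ x
    have h1 : ‖WeakDual.toStrongDual ψ.1‖ ≤ 1 := by
      have := ψ.2
      rwa [Set.mem_preimage, mem_closedBall_zero_iff] at this
    have h2 := (WeakDual.toStrongDual ψ.1).le_opNorm x
    calc ‖ψ.1 x‖ ≤ ‖WeakDual.toStrongDual ψ.1‖ * ‖x‖ := h2
      _ ≤ 1 * ‖x‖ := mul_le_mul_of_nonneg_right h1 (norm_nonneg _)
      _ = ‖x‖ := one_mul _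
  have hd : ‖(WeakDual.toStrongDual φ.1).comp S - (WeakDual.toStrongDual φ0.1).comp S‖ ≤
      3 * ε / 4 := by
    refine ContinuousLinearMap.opNorm_le_of_unit_norm (by positivity) fun x hx => ?_
    have hmem : S x ∈ S '' Metric.closedBall 0 1 :=
      ⟨x, mem_closedBall_zero_iff.2 hx.le, rfl⟩
    obtain ⟨s, hs, hxs⟩ := Set.mem_iUnion₂.1 (htc hmem)
    rw [Metric.mem_ball, dist_eq_norm] at hxs
    have h1 : ((WeakDual.toStrongDual φ.1).comp S - (WeakDual.toStrongDual φ0.1).comp S) x =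
        φ.1 (S x - s) + (φ.1 s - φ0.1 s) - φ0.1 (S x - s) := by
      rw [map_sub, map_sub]
      show φ.1 (S x) - φ0.1 (S x) = _
      ring
    rw [h1]
    have h2 := hφ s hs
    have h3 := hn φ (S x - s)
    have h4 := hn φ0 (S x - s)
    calc ‖φ.1 (S x - s) + (φ.1 s - φ0.1 s) - φ0.1 (S x - s)‖
        ≤ ‖φ.1 (S x - s)‖ + ‖φ.1 s - φ0.1 s‖ + ‖φ0.1 (S x - s)‖ :=
          (norm_sub_le _ _).trans (add_le_add_left (norm_add_le _ _) _)
      _ ≤ 3 * ε / 4 := by linarith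
  rw [Real.dist_eq]
  have h5 := abs_norm_sub_norm_le ((WeakDual.toStrongDual φ.1).comp S)
    ((WeakDual.toStrongDual φ0.1).comp S)
  linarith

/-- finite rank -/
def FR {X Y : Type*} [NormedAddCommGroup X] [NormedSpace 𝕜 X] [NormedAddCommGroup Y]
    [NormedSpace 𝕜 Y] (F : X →L[𝕜] Y) : Prop :=
  ∃ W : Submodule 𝕜 Y, FiniteDimensional 𝕜 W ∧ ∀ x, F x ∈ W

/-- weak criterion for the approximation by operators of finite rank -/
theorem approx_of_pointwise {X : Type*} [NormedAddCommGroup X] [NormedSpace 𝕜 X]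
    (T : X →L[𝕜] X) (F : ℕ → (X →L[𝕜] X)) (hF : ∀ n, FR (F n))
    (hT : ∀ n, IsCompactOperator (T - F n)) (M : ℝ) (hM : ∀ n, ‖T - F n‖ ≤ M)
    (hlim : ∀ φ : X →L[𝕜] 𝕜, Tendsto (fun n => ‖φ.comp (T - F n)‖) atTop (𝓝 0))
    {ε : ℝ} (hε : 0 < ε) : ∃ G : X →L[𝕜] X, FR G ∧ ‖T - G‖ ≤ ε := by
  have hcomp : CompactSpace (Ball 𝕜 X) :=
    isCompact_iff_compactSpace.1 (WeakDual.isCompact_closedBall 0 1)
  let ψ : ℕ → C(Ball 𝕜 X, ℝ) := fun n =>
    ⟨fun φ => ‖(WeakDual.toStrongDual φ.1).comp (T - F n)‖, continuous_norm_comp _ (hT n)⟩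
  have hnorm : ∀ φ : Ball 𝕜 X, ‖WeakDual.toStrongDual φ.1‖ ≤ 1 := by
    intro φ
    have := φ.2
    rwa [Set.mem_preimage, mem_closedBall_zero_iff] at this
  have h0 : ∀ n (φ : Ball 𝕜 X), ‖ψ n φ‖ ≤ M := by
    intro n φ
    show ‖‖(WeakDual.toStrongDual φ.1).comp (T - F n)‖‖ ≤ M
    rw [norm_norm]
    calc ‖(WeakDual.toStrongDual φ.1).comp (T - F n)‖
        ≤ ‖WeakDual.toStrongDual φ.1‖ * ‖T - F n‖ := ContinuousLinearMap.opNorm_comp_le _ _
      _ ≤ 1 * ‖T - F n‖ := mul_le_mul_of_nonneg_right (hnorm φ) (norm_nonneg _)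
      _ ≤ M := by rw [one_mul]; exact hM n
  obtain ⟨g, hg, hgε⟩ := convex_small ψ M h0 (fun φ => hlim (WeakDual.toStrongDual φ.1)) hε
  let Cs : Set C(Ball 𝕜 X, ℝ) := {g | ∃ G : X →L[𝕜] X, FR G ∧
    ∀ φ : Ball 𝕜 X, ‖(WeakDual.toStrongDual φ.1).comp (T - G)‖ ≤ g φ}
  have hconv : Convex ℝ Cs := by
    rintro a ⟨A, ⟨W1, hW1, hA1⟩, hA⟩ b ⟨B, ⟨W2, hW2, hB2⟩, hB⟩ s t hs ht hst
    refine ⟨((s : ℝ) : 𝕜) • A + ((t : ℝ) : 𝕜) • B, ⟨W1 ⊔ W2, inferInstance, fun x => ?_⟩, ?_⟩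
    · exact Submodule.add_mem _ (Submodule.smul_mem _ _ (Submodule.mem_sup_left (hA1 x)))
        (Submodule.smul_mem _ _ (Submodule.mem_sup_right (hB2 x)))
    · intro φ
      have hst' : ((s : ℝ) : 𝕜) + ((t : ℝ) : 𝕜) = 1 := by
        rw [← RCLike.ofReal_add, hst, RCLike.ofReal_one]
      have h1 : (WeakDual.toStrongDual φ.1).comp (T - (((s : ℝ) : 𝕜) • A + ((t : ℝ) : 𝕜) • B)) =
          ((s : ℝ) : 𝕜) • (WeakDual.toStrongDual φ.1).comp (T - A) +
          ((t : ℝ) : 𝕜) • (WeakDual.toStrongDual φ.1).comp (T - B) := by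
        ext x
        have h2 : T x = ((s : ℝ) : 𝕜) • T x + ((t : ℝ) : 𝕜) • T x := by
          rw [← add_smul, hst', one_smul]
        show (WeakDual.toStrongDual φ.1) (T x - (((s : ℝ) : 𝕜) • A x + ((t : ℝ) : 𝕜) • B x)) =
          ((s : ℝ) : 𝕜) • (WeakDual.toStrongDual φ.1) (T x - A x) +
          ((t : ℝ) : 𝕜) • (WeakDual.toStrongDual φ.1) (T x - B x)
        have key : T x - (((s : ℝ) : 𝕜) • A x + ((t : ℝ) : 𝕜) • B x) =
            ((s : ℝ) : 𝕜) • (T x - A x) + ((t : ℝ) : 𝕜) • (T x - B x) := by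
          conv_lhs => rw [h2]
          rw [smul_sub, smul_sub]
          abel
        rw [key, map_add, map_smul, map_smul]
      rw [h1]
      show _ ≤ s * a φ + t * b φ
      refine (norm_add_le _ _).trans ?_
      rw [norm_smul, norm_smul, RCLike.norm_ofReal, RCLike.norm_ofReal, abs_of_nonneg hs,
        abs_of_nonneg ht]
      exact add_le_add (mul_le_mul_of_nonneg_left (hA φ) hs) (mul_le_mul_of_nonneg_left (hB φ) ht)
  have hsub : convexHull ℝ (Set.range ψ) ⊆ Cs := by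
    refine convexHull_min ?_ hconv
    rintro _ ⟨n, rfl⟩
    exact ⟨F n, hF n, fun φ => le_rfl⟩
  obtain ⟨G, hG, hGφ⟩ := hsub hg
  refine ⟨G, hG, ContinuousLinearMap.opNorm_le_bound _ hε.le fun x => ?_⟩
  obtain ⟨f, hf1, hf2⟩ := exists_dual_vector'' 𝕜 ((T - G) x)
  let φ : Ball 𝕜 X := ⟨StrongDual.toWeakDual f, by
    rw [Set.mem_preimage, mem_closedBall_zero_iff]
    exact hf1⟩
  have h3 : ‖f.comp (T - G)‖ ≤ ε := (hGφ φ).trans (hgε φ).le
  have h4 : ‖(T - G) x‖ = ‖(f.comp (T - G)) x‖ := by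
    show ‖(T - G) x‖ = ‖f ((T - G) x)‖
    rw [hf2]
    simp
  rw [h4]
  exact (f.comp (T - G)).le_of_opNorm_le h3 x

end Pool.Agent.H57.KH
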