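import Pool.Agent.H57.KH.B
import Pool.Agent.H57.KN.C

/-!
Compact operators that factor through a Hilbert space with a countable basis are norm limits of
operators of finite rank.
-/

namespace Pool.Agent.H57.KH

open Filter Topology

variable {𝕜 : Type*} [RCLike 𝕜]

lemma FR.zero {X Y : Type*} [NormedAddCommGroup X] [NormedSpace 𝕜 X] [NormedAddCommGroup Y]
    [NormedSpace 𝕜 Y] : FR (0 : X →L[𝕜] Y) := ⟨⊥, inferInstance, fun _ => rfl⟩

lemma FR.add {X Y : Type*} [NormedAddCommGroup X] [NormedSpace 𝕜 X] [NormedAddCommGroup Y]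
    [NormedSpace 𝕜 Y] {F G : X →L[𝕜] Y} (hF : FR F) (hG : FR G) : FR (F + G) := by
  obtain ⟨W1, h1, h1'⟩ := hF
  obtain ⟨W2, h2, h2'⟩ := hG
  exact ⟨W1 ⊔ W2, inferInstance, fun x => Submodule.add_mem _ (Submodule.mem_sup_left (h1' x))
    (Submodule.mem_sup_right (h2' x))⟩

lemma FR.smulRight {X Y : Type*} [NormedAddCommGroup X] [NormedSpace 𝕜 X] [NormedAddCommGroup Y]
    [NormedSpace 𝕜 Y] (f : X →L[𝕜] 𝕜) (y : Y) : FR (f.smulRight y) :=
  ⟨Submodule.span 𝕜 {y}, inferInstance, fun _ =>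
    Submodule.smul_mem _ _ (Submodule.mem_span_singleton_self y)⟩

lemma FR.sum {X Y : Type*} [NormedAddCommGroup X] [NormedSpace 𝕜 X] [NormedAddCommGroup Y]
    [NormedSpace 𝕜 Y] (f : ℕ → (X →L[𝕜] 𝕜)) (y : ℕ → Y) (n : ℕ) :
    FR (∑ i ∈ Finset.range n, (f i).smulRight (y i)) := by
  induction n with
  | zero =>
    rw [Finset.range_zero, Finset.sum_empty]
    exact FR.zero
  | succ n ih =>
    rw [Finset.sum_range_succ]
    exact ih.add (FR.smulRight _ _)

lemma compact_sum_range {X Y : Type*} [NormedAddCommGroup X] [NormedSpace 𝕜 X]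
    [NormedAddCommGroup Y] [NormedSpace 𝕜 Y] (f : ℕ → (X →L[𝕜] 𝕜)) (y : ℕ → Y) (n : ℕ) :
    IsCompactOperator (∑ i ∈ Finset.range n, (f i).smulRight (y i) : X →L[𝕜] Y) := by
  have : (∑ i ∈ Finset.range n, (f i).smulRight (y i) : X →L[𝕜] Y) ∈
      (compactOperator (RingHom.id 𝕜) X Y : Submodule 𝕜 (X →L[𝕜] Y)) :=
    Submodule.sum_mem _ fun i _ => KN.compact_smulRight (f i) (y i)
  exact this

/-- a compact operator that factors through a Hilbert space with a countable basis is a norm limit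
of operators of finite rank -/
theorem approx_of_factor {X : Type*} [NormedAddCommGroup X] [NormedSpace 𝕜 X] [CompleteSpace X]
    {H : Type*} [NormedAddCommGroup H] [InnerProductSpace 𝕜 H] [CompleteSpace H]
    (b : HilbertBasis ℕ 𝕜 H) (A : X →L[𝕜] H) (B : H →L[𝕜] X)
    (hT : IsCompactOperator (B.comp A)) {ε : ℝ} (hε : 0 < ε) :
    ∃ G : X →L[𝕜] X, FR G ∧ ‖B.comp A - G‖ ≤ ε := by
  let F : ℕ → (X →L[𝕜] X) := fun n =>
    ∑ i ∈ Finset.range n, ((innerSL 𝕜 (b i)).comp A).smulRight (B (b i))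
  have hFx : ∀ n x, F n x = ∑ i ∈ Finset.range n, inner 𝕜 (b i) (A x) • B (b i) := by
    intro n x
    show (∑ i ∈ Finset.range n, ((innerSL 𝕜 (b i)).comp A).smulRight (B (b i)) : X →L[𝕜] X) x = _
    rw [sum_apply]
    rfl
  have hpt : ∀ x, Tendsto (fun n => F n x) atTop (𝓝 (B (A x))) := by
    intro x
    have h1 := ((b.hasSum_repr (A x)).mapL B).tendsto_sum_nat
    refine h1.congr fun n => ?_
    rw [hFx]
    refine Finset.sum_congr rfl fun i _ => ?_
    rw [map_smul, b.repr_apply_apply]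
  obtain ⟨M, hM⟩ : ∃ M, ∀ n, ‖B.comp A - F n‖ ≤ M := by
    refine banach_steinhaus fun x => ?_
    have h1 : Tendsto (fun n => ‖(B.comp A - F n) x‖) atTop (𝓝 ‖B (A x) - B (A x)‖) :=
      (tendsto_const_nhds.sub (hpt x)).norm
    obtain ⟨C, hC⟩ := h1.bddAbove_range
    exact ⟨C, fun n => hC ⟨n, rfl⟩⟩
  refine approx_of_pointwise (B.comp A) F (fun n => FR.sum _ _ n)
    (fun n => hT.sub (compact_sum_range _ _ n)) M hM ?_ hε
  intro φ
  let a : H := (InnerProductSpace.toDual 𝕜 H).symm (φ.comp B)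
  have ha : ∀ h : H, inner 𝕜 a h = φ (B h) := fun h =>
    InnerProductSpace.toDual_symm_apply (x := h) (y := φ.comp B)
  let c : ℕ → H := fun n => ∑ i ∈ Finset.range n, inner 𝕜 (b i) a • b i
  have hc : Tendsto (fun n => ‖a - c n‖ * ‖A‖) atTop (𝓝 0) := by
    have h1 := (b.hasSum_repr a).tendsto_sum_nat
    have h2 : Tendsto c atTop (𝓝 a) := by
      refine h1.congr fun n => ?_
      refine Finset.sum_congr rfl fun i _ => ?_
      rw [b.repr_apply_apply]
    have h3 : Tendsto (fun n => ‖a - c n‖ * ‖A‖) atTop (𝓝 (‖a - a‖ * ‖A‖)) :=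
      ((tendsto_const_nhds.sub h2).norm).mul_const _
    simpa using h3
  refine squeeze_zero (fun n => norm_nonneg _) (fun n => ?_) hc
  refine ContinuousLinearMap.opNorm_le_bound _ (by positivity) fun x => ?_
  have h4 : (φ.comp (B.comp A - F n)) x = inner 𝕜 (a - c n) (A x) := by
    show φ (B (A x) - F n x) = _
    rw [map_sub, hFx, map_sum, inner_sub_left, ha, sum_inner]
    congr 1
    refine Finset.sum_congr rfl fun i _ => ?_
    rw [map_smul, inner_smul_left, inner_conj_symm, ha, smul_eq_mul, mul_comm]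
  rw [h4]
  calc ‖inner 𝕜 (a - c n) (A x)‖ ≤ ‖a - c n‖ * ‖A x‖ := norm_inner_le_norm _ _
    _ ≤ ‖a - c n‖ * (‖A‖ * ‖x‖) := mul_le_mul_of_nonneg_left (A.le_opNorm x) (norm_nonneg _)
    _ = ‖a - c n‖ * ‖A‖ * ‖x‖ := by ring

end Pool.Agent.H57.KH
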