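import Mathlib

/-!
Nuclear operators factor through `ℓ²`.
-/

namespace Pool.Agent.H57.KH

open Filter Topology
open scoped lp

variable {𝕜 : Type*} [RCLike 𝕜]

lemma split {X Y : Type*} [NormedAddCommGroup X] [NormedSpace 𝕜 X] [NormedAddCommGroup Y]
    [NormedSpace 𝕜 Y] (f : X →L[𝕜] 𝕜) (y : Y) : ∃ (u : X →L[𝕜] 𝕜) (v : Y),
    ‖u‖ ^ 2 ≤ ‖f‖ * ‖y‖ ∧ ‖v‖ ^ 2 ≤ ‖f‖ * ‖y‖ ∧ ∀ x, u x • v = f x • y := by
  by_cases h : f = 0 ∨ y = 0
  · refine ⟨0, 0, by simp; positivity, by simp; positivity, fun x => ?_⟩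
    rcases h with h | h
    · simp [h]
    · simp [h]
  · push Not at h
    have hf : 0 < ‖f‖ := norm_pos_iff.2 h.1
    have hy : 0 < ‖y‖ := norm_pos_iff.2 h.2
    have hr : 0 < √(‖y‖ / ‖f‖) := Real.sqrt_pos.2 (by positivity)
    have hr2 : √(‖y‖ / ‖f‖) ^ 2 = ‖y‖ / ‖f‖ := Real.sq_sqrt (by positivity)
    refine ⟨((√(‖y‖ / ‖f‖) : ℝ) : 𝕜) • f, ((√(‖y‖ / ‖f‖) : ℝ) : 𝕜)⁻¹ • y, ?_, ?_, fun x => ?_⟩
    · rw [norm_smul, RCLike.norm_ofReal, abs_of_pos hr, mul_pow, hr2]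
      apply le_of_eq
      field_simp
    · rw [norm_smul, norm_inv, RCLike.norm_ofReal, abs_of_pos hr, mul_pow, inv_pow, hr2]
      apply le_of_eq
      field_simp
    · rw [smul_apply, smul_smul, smul_eq_mul]
      congr 1
      have : ((√(‖y‖ / ‖f‖) : ℝ) : 𝕜) ≠ 0 := RCLike.ofReal_ne_zero.2 hr.ne'
      field_simp

/-- nuclear operators factor through `ℓ²` -/
theorem factor_of_nuclear {X Y : Type*} [NormedAddCommGroup X] [NormedSpace 𝕜 X]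
    [NormedAddCommGroup Y] [NormedSpace 𝕜 Y] [CompleteSpace Y] (T : X →L[𝕜] Y)
    (f : ℕ → (X →L[𝕜] 𝕜)) (y : ℕ → Y) (hs : Summable fun n => ‖f n‖ * ‖y n‖)
    (hT : ∀ x, HasSum (fun n => f n x • y n) (T x)) :
    ∃ (A : X →L[𝕜] ℓ²(ℕ, 𝕜)) (B : ℓ²(ℕ, 𝕜) →L[𝕜] Y), T = B.comp A := by
  choose u v hu hv huv using fun n => split (f n) (y n)
  have hux : ∀ x n, ‖u n x‖ ^ 2 ≤ ‖f n‖ * ‖y n‖ * ‖x‖ ^ 2 := by
    intro x n
    calc ‖u n x‖ ^ 2 ≤ (‖u n‖ * ‖x‖) ^ 2 :=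
          pow_le_pow_left₀ (norm_nonneg _) ((u n).le_opNorm x) 2
      _ = ‖u n‖ ^ 2 * ‖x‖ ^ 2 := by ring
      _ ≤ _ := mul_le_mul_of_nonneg_right (hu n) (by positivity)
  have hus : ∀ x, Summable fun n => ‖u n x‖ ^ 2 := fun x =>
    Summable.of_nonneg_of_le (fun n => by positivity) (hux x) (hs.mul_right _)
  have hmem : ∀ x, Memℓp (fun n => u n x) 2 := by
    intro x
    refine memℓp_gen ?_
    simpa using hus x
  let A0 : X →ₗ[𝕜] ℓ²(ℕ, 𝕜) :=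
    { toFun := fun x => ⟨fun n => u n x, hmem x⟩
      map_add' := fun a b => by
        ext n
        exact map_add (u n) a b
      map_smul' := fun c a => by
        ext n
        exact map_smul (u n) c a }
  let A : X →L[𝕜] ℓ²(ℕ, 𝕜) := A0.mkContinuous (√(∑' n, ‖f n‖ * ‖y n‖)) (by
    intro x
    have h1 : ‖A0 x‖ ^ 2 = ∑' n, ‖u n x‖ ^ 2 := by
      have h0 := lp.norm_rpow_eq_tsum (p := 2) (by norm_num) (A0 x)
      have h0' : ‖A0 x‖ ^ 2 = ∑' n, ‖(A0 x) n‖ ^ 2 := by simpa using h0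
      exact h0'
    have h2 : ‖A0 x‖ ^ 2 ≤ (∑' n, ‖f n‖ * ‖y n‖) * ‖x‖ ^ 2 := by
      rw [h1, ← tsum_mul_right]
      exact (hus x).tsum_le_tsum (hux x) (hs.mul_right _)
    have h3 : ‖A0 x‖ ≤ √((∑' n, ‖f n‖ * ‖y n‖) * ‖x‖ ^ 2) := Real.le_sqrt_of_sq_le h2
    rwa [Real.sqrt_mul' _ (by positivity), Real.sqrt_sq (norm_nonneg x)] at h3)
  have hA : ∀ x n, A x n = u n x := fun x n => rfl
  have hvs : Summable fun n => ‖v n‖ ^ 2 :=
    Summable.of_nonneg_of_le (fun n => by positivity) hv hs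
  have hsumm : ∀ h : ℓ²(ℕ, 𝕜), Summable fun n => h n • v n := by
    intro h
    have h1 : Summable fun n => ‖h n‖ ^ 2 := by
      have := (lp.memℓp h).summable (by norm_num)
      simpa using this
    refine Summable.of_norm_bounded (h1.add hvs) fun n => ?_
    rw [norm_smul]
    nlinarith [sq_nonneg (‖h n‖ - ‖v n‖), sq_nonneg (‖h n‖), sq_nonneg (‖v n‖)]
  let g : ℕ → (ℓ²(ℕ, 𝕜) →L[𝕜] Y) := fun n =>
    ∑ i ∈ Finset.range n, (lp.evalCLM 𝕜 (fun _ : ℕ => 𝕜) 2 i).smulRight (v i)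
  have hg : ∀ n h, g n h = ∑ i ∈ Finset.range n, h i • v i := by
    intro n h
    show (∑ i ∈ Finset.range n, (lp.evalCLM 𝕜 (fun _ : ℕ => 𝕜) 2 i).smulRight (v i) :
      ℓ²(ℕ, 𝕜) →L[𝕜] Y) h = _
    rw [sum_apply]
    rfl
  have hlim : Tendsto (fun n h => g n h) atTop (𝓝 fun h => ∑' n, h n • v n) := by
    rw [tendsto_pi_nhds]
    intro h
    refine (hsumm h).hasSum.tendsto_sum_nat.congr fun n => (hg n h).symm
  let B : ℓ²(ℕ, 𝕜) →L[𝕜] Y := continuousLinearMapOfTendsto g hlim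
  have hB : ∀ h, B h = ∑' n, h n • v n := fun h => rfl
  refine ⟨A, B, ?_⟩
  ext x
  show T x = B (A x)
  rw [hB, ← (hT x).tsum_eq]
  refine tsum_congr fun n => ?_
  rw [hA, huv]

end Pool.Agent.H57.KH
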