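import Pool.Agent.H57.KH.C

/-!
Compact operators that factor through a space with a shrinking approximating sequence are norm
limits of operators of finite rank.
-/

namespace Pool.Agent.H57.KH

open Filter Topology

variable {𝕜 : Type*} [RCLike 𝕜]

lemma FR.compact {X Y : Type*} [NormedAddCommGroup X] [NormedSpace 𝕜 X] [NormedAddCommGroup Y]
    [NormedSpace 𝕜 Y] {F : X →L[𝕜] Y} (hF : FR F) : IsCompactOperator F := by
  obtain ⟨W, hW, hF⟩ := hF
  have hprop : ProperSpace W := FiniteDimensional.proper 𝕜 W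
  have h1 : IsCompactOperator (F.codRestrict W hF) :=
    isCompactOperator_of_locallyCompactSpace_dom _
  exact h1.clm_comp W.subtypeL

lemma FR.comp_comp {X Z : Type*} [NormedAddCommGroup X] [NormedSpace 𝕜 X] [NormedAddCommGroup Z]
    [NormedSpace 𝕜 Z] {P : Z →L[𝕜] Z} (hP : FR P) (A : X →L[𝕜] Z) (B : Z →L[𝕜] X) :
    FR (B.comp (P.comp A)) := by
  obtain ⟨W, hW, hP⟩ := hP
  exact ⟨W.map (B : Z →ₗ[𝕜] X), inferInstance, fun x => ⟨P (A x), hP _, rfl⟩⟩

/-- a compact operator that factors through a space with a shrinking approximating sequence is a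
norm limit of operators of finite rank -/
theorem approx_of_shrinking {X : Type*} [NormedAddCommGroup X] [NormedSpace 𝕜 X]
    {Z : Type*} [NormedAddCommGroup Z] [NormedSpace 𝕜 Z] (P : ℕ → (Z →L[𝕜] Z))
    (hP : ∀ n, FR (P n))
    (hlim : ∀ ψ : Z →L[𝕜] 𝕜, Tendsto (fun n => ‖ψ.comp (P n) - ψ‖) atTop (𝓝 0))
    (A : X →L[𝕜] Z) (B : Z →L[𝕜] X) (hT : IsCompactOperator (B.comp A)) {ε : ℝ} (hε : 0 < ε) :
    ∃ G : X →L[𝕜] X, FR G ∧ ‖B.comp A - G‖ ≤ ε := by
  let F : ℕ → (X →L[𝕜] X) := fun n => B.comp ((P n).comp A)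
  have hlim' : ∀ φ : X →L[𝕜] 𝕜, Tendsto (fun n => ‖φ.comp (B.comp A - F n)‖) atTop (𝓝 0) := by
    intro φ
    have h1 := (hlim (φ.comp B)).mul_const ‖A‖
    rw [zero_mul] at h1
    refine squeeze_zero (fun n => norm_nonneg _) (fun n => ?_) h1
    have h2 : φ.comp (B.comp A - F n) = -(((φ.comp B).comp (P n) - φ.comp B).comp A) := by
      ext x
      show φ (B (A x) - B (P n (A x))) = -(φ (B (P n (A x))) - φ (B (A x)))
      rw [map_sub]
      ring
    rw [h2, norm_neg]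
    exact ContinuousLinearMap.opNorm_comp_le _ _
  let U : ℕ → ((X →L[𝕜] 𝕜) →L[𝕜] (X →L[𝕜] 𝕜)) := fun n =>
    (ContinuousLinearMap.compL 𝕜 X X 𝕜).flip (B.comp A - F n)
  have hU : ∀ n φ, U n φ = φ.comp (B.comp A - F n) := fun n φ => rfl
  obtain ⟨M, hM⟩ : ∃ M, ∀ n, ‖U n‖ ≤ M := by
    refine banach_steinhaus fun φ => ?_
    obtain ⟨C, hC⟩ := (hlim' φ).bddAbove_range
    exact ⟨C, fun n => hC ⟨n, rfl⟩⟩
  have hM' : ∀ n, ‖B.comp A - F n‖ ≤ M := by
    intro n
    have hM0 : 0 ≤ M := ((U n).opNorm_nonneg).trans (hM n)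
    refine ContinuousLinearMap.opNorm_le_bound _ hM0 fun x => ?_
    obtain ⟨f, hf1, hf2⟩ := exists_dual_vector'' 𝕜 ((B.comp A - F n) x)
    have h4 : ‖(B.comp A - F n) x‖ = ‖(U n f) x‖ := by
      show ‖(B.comp A - F n) x‖ = ‖f ((B.comp A - F n) x)‖
      rw [hf2]
      simp
    rw [h4]
    refine ContinuousLinearMap.le_of_opNorm_le _ ?_ x
    calc ‖U n f‖ ≤ ‖U n‖ * ‖f‖ := (U n).le_opNorm f
      _ ≤ ‖U n‖ * 1 := mul_le_mul_of_nonneg_left hf1 (U n).opNorm_nonneg
      _ ≤ M := by rw [mul_one]; exact hM n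
  exact approx_of_pointwise (B.comp A) F (fun n => (hP n).comp_comp A B)
    (fun n => hT.sub ((hP n).comp_comp A B).compact) M hM' hlim' hε

/-- a Hilbert space with a countable basis has a shrinking approximating sequence -/
theorem shrinking_of_hilbert {H : Type*} [NormedAddCommGroup H] [InnerProductSpace 𝕜 H]
    [CompleteSpace H] (b : HilbertBasis ℕ 𝕜 H) : ∃ P : ℕ → (H →L[𝕜] H), (∀ n, FR (P n)) ∧
      ∀ ψ : H →L[𝕜] 𝕜, Tendsto (fun n => ‖ψ.comp (P n) - ψ‖) atTop (𝓝 0) := by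
  let P : ℕ → (H →L[𝕜] H) := fun n =>
    ∑ i ∈ Finset.range n, (innerSL 𝕜 (b i)).smulRight (b i)
  have hPx : ∀ n x, P n x = ∑ i ∈ Finset.range n, inner 𝕜 (b i) x • b i := by
    intro n x
    show (∑ i ∈ Finset.range n, (innerSL 𝕜 (b i)).smulRight (b i) : H →L[𝕜] H) x = _
    rw [sum_apply]
    rfl
  refine ⟨P, fun n => FR.sum _ _ n, fun φ => ?_⟩
  let a : H := (InnerProductSpace.toDual 𝕜 H).symm φ
  have ha : ∀ h : H, inner 𝕜 a h = φ h := fun h =>
    InnerProductSpace.toDual_symm_apply (x := h) (y := φ)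
  let c : ℕ → H := fun n => ∑ i ∈ Finset.range n, inner 𝕜 (b i) a • b i
  have hc : Tendsto (fun n => ‖c n - a‖) atTop (𝓝 0) := by
    have h1 := (b.hasSum_repr a).tendsto_sum_nat
    have h2 : Tendsto c atTop (𝓝 a) := by
      refine h1.congr fun n => ?_
      refine Finset.sum_congr rfl fun i _ => ?_
      rw [b.repr_apply_apply]
    have h3 : Tendsto (fun n => ‖c n - a‖) atTop (𝓝 ‖a - a‖) :=
      (h2.sub tendsto_const_nhds).norm
    simpa using h3
  refine squeeze_zero (fun n => norm_nonneg _) (fun n => ?_) hc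
  refine ContinuousLinearMap.opNorm_le_bound _ (norm_nonneg _) fun x => ?_
  have h4 : (φ.comp (P n) - φ) x = inner 𝕜 (c n - a) x := by
    show φ (P n x) - φ x = _
    rw [hPx, map_sum, inner_sub_left, ha, sum_inner]
    congr 1
    refine Finset.sum_congr rfl fun i _ => ?_
    rw [map_smul, inner_smul_left, inner_conj_symm, ha, smul_eq_mul, mul_comm]
  rw [h4]
  exact norm_inner_le_norm _ _

end Pool.Agent.H57.KH
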