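import Pool.Agent.H57.KH.E

/-!
Compact operators that factor through a Hilbert space are norm limits of operators of finite rank.
-/

namespace Pool.Agent.H57.KH

open Filter Topology TopologicalSpace

variable {𝕜 : Type*} [RCLike 𝕜]

/-- a dense sequence in the image of the unit ball under a compact operator -/
lemma exists_seq {X : Type*} [NormedAddCommGroup X] [NormedSpace 𝕜 X] (T : X →L[𝕜] X)
    (hT : IsCompactOperator T) : ∃ x : ℕ → X, (∀ k, ‖x k‖ ≤ 1) ∧
      ∀ z, ‖z‖ ≤ 1 → ∀ ε : ℝ, 0 < ε → ∃ k, ‖T z - T (x k)‖ < ε := by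
  have h1 : IsSeparable (T '' Metric.closedBall 0 1) :=
    (hT.isCompact_closure_image_closedBall (f := (T : X →ₗ[𝕜] X)) 1).isSeparable.mono
      subset_closure
  obtain ⟨c, hc1, hc2, hc3⟩ := h1.exists_countable_dense_subset
  have hne : c.Nonempty := by
    rw [Set.nonempty_iff_ne_empty]
    rintro rfl
    rw [closure_empty] at hc3
    exact hc3 ⟨0, by simp, rfl⟩
  obtain ⟨f, hf⟩ := hc2.exists_eq_range hne
  have hx : ∀ k, ∃ x : X, ‖x‖ ≤ 1 ∧ T x = f k := by
    intro k
    obtain ⟨x, hx, hxk⟩ := hc1 (hf ▸ Set.mem_range_self k)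
    exact ⟨x, mem_closedBall_zero_iff.1 hx, hxk⟩
  choose x hx1 hx2 using hx
  refine ⟨x, hx1, fun z hz ε hε => ?_⟩
  obtain ⟨y, hy, hyz⟩ := Metric.mem_closure_iff.1
    (hc3 ⟨z, mem_closedBall_zero_iff.2 hz, rfl⟩) ε hε
  rw [hf] at hy
  obtain ⟨k, rfl⟩ := hy
  refine ⟨k, ?_⟩
  rw [hx2, ← dist_eq_norm]
  exact hyz

/-- a compact operator that factors through a Hilbert space is a norm limit of operators of finite
rank -/
theorem approx_of_hilbert {X : Type*} [NormedAddCommGroup X] [NormedSpace 𝕜 X]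
    {H : Type*} [NormedAddCommGroup H] [InnerProductSpace 𝕜 H] [CompleteSpace H]
    (A : X →L[𝕜] H) (B : H →L[𝕜] X) (hT : IsCompactOperator (B.comp A)) {ε : ℝ} (hε : 0 < ε) :
    ∃ G : X →L[𝕜] X, FR G ∧ ‖B.comp A - G‖ ≤ ε := by
  let a : (X →L[𝕜] 𝕜) → H := fun φ => (InnerProductSpace.toDual 𝕜 H).symm (φ.comp B)
  have ha : ∀ φ (h : H), inner 𝕜 (a φ) h = φ (B h) := fun φ h =>
    InnerProductSpace.toDual_symm_apply (x := h) (y := φ.comp B)
  have ha_add : ∀ φ ψ, a (φ + ψ) = a φ + a ψ := by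
    intro φ ψ
    refine ext_inner_right 𝕜 fun h => ?_
    rw [inner_add_left, ha, ha, ha]
    rfl
  have ha_smul : ∀ (c : 𝕜) φ, a (c • φ) = (starRingEnd 𝕜) c • a φ := by
    intro c φ
    refine ext_inner_right 𝕜 fun h => ?_
    rw [inner_smul_left, ha, ha, RCLike.conj_conj]
    rfl
  let R : Submodule 𝕜 H :=
    { carrier := Set.range a
      add_mem' := by
        rintro _ _ ⟨φ, rfl⟩ ⟨ψ, rfl⟩
        exact ⟨φ + ψ, ha_add φ ψ⟩
      zero_mem' := ⟨0, by
        refine ext_inner_right 𝕜 fun h => ?_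
        rw [ha, inner_zero_left]
        rfl⟩
      smul_mem' := by
        rintro c _ ⟨φ, rfl⟩
        refine ⟨(starRingEnd 𝕜) c • φ, ?_⟩
        rw [ha_smul, RCLike.conj_conj] }
  let R0 : Submodule 𝕜 H := R.topologicalClosure
  have hR0 : IsClosed (R0 : Set H) := R.isClosed_topologicalClosure
  have : CompleteSpace R0 := hR0.completeSpace_coe
  -- `B` does not see the complement of `R0`
  have hBQ : ∀ h : H, B (R0.starProjection h) = B h := by
    intro h
    refine (SeparatingDual.eq_iff_forall_dual_eq (R := 𝕜)).2 fun φ => ?_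
    rw [← ha, ← ha]
    have h1 : inner 𝕜 (a φ) (h - R0.starProjection h) = 0 :=
      Submodule.sub_starProjection_mem_orthogonal h (a φ) (R.le_topologicalClosure ⟨φ, rfl⟩)
    rw [inner_sub_right, sub_eq_zero] at h1
    exact h1.symm
  let A' : X →L[𝕜] H := R0.starProjection.comp A
  have hTA' : B.comp A' = B.comp A := by
    ext x
    exact hBQ (A x)
  rw [← hTA'] at hT ⊢
  have hA'R : ∀ x, A' x ∈ R0 := fun x => Submodule.starProjection_apply_mem _ _
  obtain ⟨x, hx1, hx2⟩ := exists_seq (B.comp A') hT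
  let U : ℕ → Submodule 𝕜 H := fun n => Submodule.span 𝕜 ((fun k => A' (x k)) '' {k | k < n})
  have hUfin : ∀ n, FiniteDimensional 𝕜 (U n) := fun n =>
    FiniteDimensional.span_of_finite 𝕜 ((Set.finite_lt_nat n).image _)
  have hUmono : Monotone U := fun m n hmn =>
    Submodule.span_mono (Set.image_mono fun k hk => lt_of_lt_of_le hk hmn)
  let H1 : Submodule 𝕜 H := (⨆ n, U n).topologicalClosure
  have hH1 : IsClosed (H1 : Set H) := (⨆ n, U n).isClosed_topologicalClosure
  have : CompleteSpace H1 := hH1.completeSpace_coe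
  have hxH1 : ∀ k, A' (x k) ∈ H1 := fun k =>
    Submodule.le_topologicalClosure _ (le_iSup U (k + 1)
      (Submodule.subset_span ⟨k, Nat.lt_succ_self k, rfl⟩))
  have hH1R : H1 ≤ R0 := by
    refine Submodule.topologicalClosure_minimal _ (iSup_le fun n => Submodule.span_le.2 ?_) hR0
    rintro _ ⟨k, -, rfl⟩
    exact hA'R _
  -- the values of `A'` lie in `H1`
  have hball : ∀ z, ‖z‖ ≤ 1 → A' z ∈ H1 := by
    intro z hz
    rw [← Submodule.starProjection_eq_self_iff]
    obtain ⟨y, hydef⟩ : ∃ y : H, y = A' z - H1.starProjection (A' z) := ⟨_, rfl⟩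
    have hyR : y ∈ R0 := by
      rw [hydef]
      exact R0.sub_mem (hA'R z) (hH1R (Submodule.starProjection_apply_mem _ _))
    have hyorth : ∀ h ∈ H1, inner 𝕜 y h = 0 := by
      intro h hh
      rw [hydef]
      exact Submodule.starProjection_inner_eq_zero _ _ hh
    have hy2 : ∀ k, inner 𝕜 y y = inner 𝕜 y (A' (z - x k)) := by
      intro k
      have e1 : inner 𝕜 y (A' (z - x k)) = inner 𝕜 y (A' z) := by
        rw [map_sub, inner_sub_right, hyorth _ (hxH1 k), sub_zero]
      have e2 : A' z = y + H1.starProjection (A' z) := by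
        rw [hydef]
        abel
      have e3 : inner 𝕜 y (A' z) = inner 𝕜 y y := by
        conv_lhs => rw [e2]
        rw [inner_add_right, hyorth _ (Submodule.starProjection_apply_mem _ _), add_zero]
      rw [e1, e3]
    have hsmall : ∀ η : ℝ, 0 < η → ‖y‖ ^ 2 ≤ η * (2 * ‖A'‖ + 1) := by
      intro η hη
      obtain ⟨_, ⟨φ, rfl⟩, hφ⟩ := Metric.mem_closure_iff.1 hyR η hη
      rw [dist_eq_norm] at hφ
      obtain ⟨k, hk⟩ := hx2 z hz (η / (‖φ‖ + 1)) (by positivity)
      have h1 : ‖y‖ ^ 2 = ‖inner 𝕜 y (A' (z - x k))‖ := by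
        rw [← hy2 k, inner_self_eq_norm_sq_to_K, ← RCLike.ofReal_pow, RCLike.norm_ofReal,
          abs_of_nonneg (by positivity)]
      have h2 : inner 𝕜 y (A' (z - x k)) =
          inner 𝕜 (y - a φ) (A' (z - x k)) + φ ((B.comp A') z - (B.comp A') (x k)) := by
        have e4 : φ ((B.comp A') z - (B.comp A') (x k)) = inner 𝕜 (a φ) (A' (z - x k)) := by
          rw [ha, ← map_sub (B.comp A')]
          rfl
        rw [e4, ← inner_add_left, sub_add_cancel]
      have h3 : ‖inner 𝕜 (y - a φ) (A' (z - x k))‖ ≤ η * (2 * ‖A'‖) := by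
        have h4 : ‖A' (z - x k)‖ ≤ 2 * ‖A'‖ := by
          calc ‖A' (z - x k)‖ ≤ ‖A'‖ * ‖z - x k‖ := A'.le_opNorm _
            _ ≤ ‖A'‖ * 2 := by
                refine mul_le_mul_of_nonneg_left ?_ (norm_nonneg _)
                have := norm_sub_le z (x k)
                linarith [hx1 k]
            _ = 2 * ‖A'‖ := mul_comm _ _
        calc ‖inner 𝕜 (y - a φ) (A' (z - x k))‖ ≤ ‖y - a φ‖ * ‖A' (z - x k)‖ :=
              norm_inner_le_norm _ _
          _ ≤ η * (2 * ‖A'‖) := mul_le_mul hφ.le h4 (norm_nonneg _) hη.le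
      have h5 : ‖φ ((B.comp A') z - (B.comp A') (x k))‖ ≤ η := by
        calc ‖φ ((B.comp A') z - (B.comp A') (x k))‖
            ≤ ‖φ‖ * ‖(B.comp A') z - (B.comp A') (x k)‖ := φ.le_opNorm _
          _ ≤ ‖φ‖ * (η / (‖φ‖ + 1)) := mul_le_mul_of_nonneg_left hk.le (norm_nonneg _)
          _ ≤ η := by
              rw [← mul_div_assoc, div_le_iff₀ (by positivity)]
              nlinarith [norm_nonneg φ]
      rw [h1, h2]
      refine (norm_add_le _ _).trans ?_
      linarith
    have hy0 : ‖y‖ ^ 2 ≤ 0 := by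
      refine le_of_forall_pos_le_add fun δ hδ => ?_
      have := hsmall (δ / (2 * ‖A'‖ + 1)) (by positivity)
      rw [div_mul_cancel₀ _ (by positivity)] at this
      linarith
    have hy1 : y = 0 := by
      have : ‖y‖ = 0 := by
        have h0 := sq_nonneg ‖y‖
        exact pow_eq_zero_iff two_ne_zero |>.1 (le_antisymm hy0 h0)
      exact norm_eq_zero.1 this
    rw [hydef, sub_eq_zero] at hy1
    exact hy1.symm
  have hall : ∀ z, A' z ∈ H1 := by
    intro z
    have hn : 0 < ‖z‖ + 1 := by positivity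
    have hc : (((‖z‖ + 1 : ℝ)) : 𝕜) ≠ 0 := RCLike.ofReal_ne_zero.2 hn.ne'
    have h1 : ‖((((‖z‖ + 1 : ℝ)) : 𝕜)⁻¹ • z)‖ ≤ 1 := by
      rw [norm_smul, norm_inv, RCLike.norm_ofReal, abs_of_pos hn, inv_mul_le_iff₀ hn]
      linarith
    have h2 := H1.smul_mem (((‖z‖ + 1 : ℝ)) : 𝕜) (hball _ h1)
    rwa [map_smul, smul_smul, mul_inv_cancel₀ hc, one_smul] at h2
  let F : ℕ → (X →L[𝕜] X) := fun n => B.comp ((U n).starProjection.comp A')
  have hFR : ∀ n, FR (F n) := fun n =>
    FR.comp_comp ⟨U n, hUfin n, fun h => Submodule.starProjection_apply_mem _ _⟩ A' B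
  refine approx_of_pointwise (B.comp A') F hFR (fun n => hT.sub (hFR n).compact)
    (‖B.comp A'‖ + ‖B‖ * ‖A'‖) (fun n => ?_) (fun φ => ?_) hε
  · refine (norm_sub_le _ _).trans (add_le_add_right ?_ _)
    calc ‖F n‖ ≤ ‖B‖ * ‖(U n).starProjection.comp A'‖ := ContinuousLinearMap.opNorm_comp_le _ _
      _ ≤ ‖B‖ * (1 * ‖A'‖) := by
          refine mul_le_mul_of_nonneg_left ?_ (norm_nonneg _)
          exact (ContinuousLinearMap.opNorm_comp_le _ _).trans
            (mul_le_mul_of_nonneg_right (Submodule.starProjection_norm_le _) (norm_nonneg _))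
      _ = ‖B‖ * ‖A'‖ := by rw [one_mul]
  · have h1 : Tendsto (fun n => ‖H1.starProjection (a φ) - (U n).starProjection (a φ)‖ * ‖A'‖)
        atTop (𝓝 0) := by
      have h2 := Submodule.starProjection_tendsto_closure_iSup U hUmono (a φ)
      have h3 : Tendsto (fun n => ‖H1.starProjection (a φ) - (U n).starProjection (a φ)‖ * ‖A'‖)
          atTop (𝓝 (‖H1.starProjection (a φ) - H1.starProjection (a φ)‖ * ‖A'‖)) :=
        ((tendsto_const_nhds.sub h2).norm).mul_const _
      simpa using h3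
    refine squeeze_zero (fun n => norm_nonneg _) (fun n => ?_) h1
    refine ContinuousLinearMap.opNorm_le_bound _ (by positivity) fun z => ?_
    have h4 : (φ.comp (B.comp A' - F n)) z =
        inner 𝕜 (H1.starProjection (a φ) - (U n).starProjection (a φ)) (A' z) := by
      have h5 : H1.starProjection (A' z) = A' z :=
        Submodule.starProjection_eq_self_iff.2 (hall z)
      show φ (B (A' z) - B ((U n).starProjection (A' z))) = _
      rw [map_sub, ← ha, ← ha, inner_sub_left, Submodule.inner_starProjection_left_eq_right,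
        Submodule.inner_starProjection_left_eq_right, h5]
    rw [h4]
    calc ‖inner 𝕜 (H1.starProjection (a φ) - (U n).starProjection (a φ)) (A' z)‖
        ≤ ‖H1.starProjection (a φ) - (U n).starProjection (a φ)‖ * ‖A' z‖ :=
          norm_inner_le_norm _ _
      _ ≤ ‖H1.starProjection (a φ) - (U n).starProjection (a φ)‖ * (‖A'‖ * ‖z‖) :=
          mul_le_mul_of_nonneg_left (A'.le_opNorm z) (norm_nonneg _)
      _ = _ := by ring

end Pool.Agent.H57.KH
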